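import Pool.Agent.Q97.C0b
import Pool.Agent.Q97.Weak

set_option autoImplicit false

/-!
# Weakly compact perturbations of the identity and slice indices of thickness
-/

namespace Pool.Agent.Results.MP_2c23da_an.IndicesZeroPerturbationOne

section Definitions

variable (X : Type*) [NormedAddCommGroup X] [NormedSpace ℝ X]

/-- The slice index of thickness of `X`: the infimum of all `r > 0` such that some slice of the
unit ball is contained in a closed ball of radius `r` centred at a point of the unit sphere. -/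
noncomputable def sliceIndex : ℝ :=
  sInf {r : ℝ | 0 < r ∧ ∃ x : X, ‖x‖ = 1 ∧ ∃ (f : X →L[ℝ] ℝ) (α : ℝ), ‖f‖ = 1 ∧ 0 < α ∧
    {y : X | ‖y‖ ≤ 1 ∧ 1 - α < f y} ⊆ Metric.closedBall x r}

/-- The weak* slice index of thickness of the dual of `X`: the infimum of all `r > 0` such that
some weak* slice of the dual unit ball (given by a point `x` of the unit sphere of `X`) is
contained in a closed ball of radius `r` centred at a point of the dual unit sphere. -/
noncomputable def dualSliceIndex : ℝ :=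
  sInf {r : ℝ | 0 < r ∧ ∃ g : X →L[ℝ] ℝ, ‖g‖ = 1 ∧ ∃ (x : X) (α : ℝ), ‖x‖ = 1 ∧ 0 < α ∧
    {h : X →L[ℝ] ℝ | ‖h‖ ≤ 1 ∧ 1 - α < h x} ⊆ Metric.closedBall g r}

variable {X} in
/-- The operator `T` is weakly compact: the weak closure of the image of the unit ball is compact
in the weak topology. -/
def IsWeaklyCompact (T : X →L[ℝ] X) : Prop :=
  IsCompact (closure (toWeakSpace ℝ X '' (T '' Metric.closedBall (0 : X) 1)))

/-- The infimum of `‖T + I‖` over all weakly compact operators `T` of norm one. -/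
noncomputable def weaklyCompactIndex : ℝ :=
  sInf {r : ℝ | ∃ T : X →L[ℝ] X, ‖T‖ = 1 ∧ IsWeaklyCompact T ∧
    r = ‖T + ContinuousLinearMap.id ℝ X‖}

end Definitions

open Q97 Q97.C0 Filter Topology

/-- The space of the example: the Euclidean sum of `c₀` and the real line. -/
abbrev XX := WithLp 2 (C0 × ℝ)

/-- The second coordinate functional. -/
noncomputable def g : XX →L[ℝ] ℝ := WithLp.sndL 2 ℝ C0 ℝ

theorem g_apply (x : XX) : g x = x.snd := rfl

/-- The unit vector of the real line. -/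
noncomputable def u : XX := WithLp.toLp 2 (0, 1)

theorem norm_u : ‖u‖ = 1 := by
  rw [WithLp.prod_norm_eq_of_L2]
  simp [u]

theorem norm_sq (x : XX) : ‖x‖ ^ 2 = ‖x.fst‖ ^ 2 + x.snd ^ 2 := by
  rw [WithLp.prod_norm_sq_eq_of_L2, Real.norm_eq_abs, sq_abs]

theorem abs_snd_le (x : XX) : |x.snd| ≤ ‖x‖ := by
  apply abs_le_of_sq_le_sq _ (norm_nonneg _)
  have := norm_sq x
  nlinarith [sq_nonneg ‖x.fst‖]

theorem norm_g : ‖g‖ = 1 := by
  apply le_antisymm
  · apply ContinuousLinearMap.opNorm_le_bound _ zero_le_one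
    intro x
    rw [one_mul, g_apply, Real.norm_eq_abs]
    exact abs_snd_le x
  · have := g.le_opNorm u
    rw [norm_u, mul_one, g_apply] at this
    simpa [u] using this

theorem sliceIndex_eq_zero : sliceIndex XX = 0 := by
  have hmem : ∀ ε : ℝ, 0 < ε → ε ∈ {r : ℝ | 0 < r ∧ ∃ x : XX, ‖x‖ = 1 ∧
      ∃ (f : XX →L[ℝ] ℝ) (α : ℝ), ‖f‖ = 1 ∧ 0 < α ∧
      {y : XX | ‖y‖ ≤ 1 ∧ 1 - α < f y} ⊆ Metric.closedBall x r} := by
    intro ε hε
    refine ⟨hε, u, norm_u, g, ε ^ 2 / 2, norm_g, by positivity, ?_⟩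
    rintro y ⟨hy1, hy2⟩
    rw [g_apply] at hy2
    rw [Metric.mem_closedBall, dist_eq_norm]
    apply le_of_sq_le_sq _ hε.le
    have h1 := norm_sq (y - u)
    have h2 := norm_sq y
    have h3 : (y - u).fst = y.fst := by simp [u]
    have h4 : (y - u).snd = y.snd - 1 := by simp [u]
    rw [h3, h4] at h1
    have h5 : ‖y‖ ^ 2 ≤ 1 := by
      have := norm_nonneg y
      nlinarith
    nlinarith
  apply le_antisymm
  · apply le_of_forall_pos_le_add
    intro ε hε
    rw [zero_add]
    exact csInf_le ⟨0, fun r hr => hr.1.le⟩ (hmem ε hε)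
  · exact Real.sInf_nonneg fun r hr => hr.1.le

theorem dualSliceIndex_eq_zero : dualSliceIndex XX = 0 := by
  have hmem : ∀ a : ℝ, 0 < a → a ≤ 1 / 2 → 4 * a ∈ {r : ℝ | 0 < r ∧ ∃ g : XX →L[ℝ] ℝ, ‖g‖ = 1 ∧
      ∃ (x : XX) (α : ℝ), ‖x‖ = 1 ∧ 0 < α ∧
      {h : XX →L[ℝ] ℝ | ‖h‖ ≤ 1 ∧ 1 - α < h x} ⊆ Metric.closedBall g r} := by
    intro a ha ha2
    refine ⟨by positivity, g, norm_g, u, a ^ 2, norm_u, by positivity, ?_⟩
    rintro h ⟨hh1, hh2⟩
    rw [Metric.mem_closedBall, dist_eq_norm]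
    apply ContinuousLinearMap.opNorm_le_bound _ (by positivity)
    intro x
    set s : ℝ := h u with hs
    have hs1 : s ≤ 1 := by
      calc s ≤ ‖h u‖ := Real.le_norm_self _
        _ ≤ ‖h‖ * ‖u‖ := h.le_opNorm u
        _ ≤ 1 := by rw [norm_u, mul_one]; exact hh1
    have hs2 : 1 / 2 ≤ s := by nlinarith
    -- the value on the first coordinate
    set z : XX := WithLp.toLp 2 (x.fst, 0) with hz
    have hxz : x = z + x.snd • u := by
      apply WithLp.ofLp_injective
      ext1
      · simp [hz, u]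
      · simp [hz, u]
    have hA : ∀ b : ℝ, (h z + b * s) ^ 2 ≤ ‖x.fst‖ ^ 2 + b ^ 2 := by
      intro b
      have h1 : h z + b * s = h (z + b • u) := by rw [map_add, map_smul, smul_eq_mul]
      have h2 : ‖z + b • u‖ ^ 2 = ‖x.fst‖ ^ 2 + b ^ 2 := by
        rw [norm_sq]
        simp [hz, u]
      rw [h1, ← h2]
      have h3 : |h (z + b • u)| ≤ ‖z + b • u‖ := by
        calc |h (z + b • u)| = ‖h (z + b • u)‖ := rfl
          _ ≤ ‖h‖ * ‖z + b • u‖ := h.le_opNorm _
          _ ≤ 1 * ‖z + b • u‖ := mul_le_mul_of_nonneg_right hh1 (norm_nonneg _)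
          _ = ‖z + b • u‖ := one_mul _
      exact sq_le_sq' (by linarith [abs_le.mp h3]) (abs_le.mp h3).2
    have hfst : ‖x.fst‖ ≤ ‖x‖ := by
      apply le_of_sq_le_sq _ (norm_nonneg _)
      have := norm_sq x
      nlinarith [sq_nonneg x.snd]
    have hx0 := norm_nonneg x
    -- `|h z| ≤ 3 a ‖x‖`
    have hhz : |h z| ≤ 3 * a * ‖x‖ := by
      have key : ∀ t : ℝ, (∀ b : ℝ, (t + b * s) ^ 2 ≤ ‖x.fst‖ ^ 2 + b ^ 2) → t ≤ 3 * a * ‖x‖ := by
        intro t ht
        by_contra hcon
        push Not at hcon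
        have h1 := ht (‖x‖ / a)
        have h2 : a * (‖x‖ / a) = ‖x‖ := by field_simp
        set b : ℝ := ‖x‖ / a with hb
        have hb0 : 0 ≤ b := by positivity
        have h3 : 1 - s ^ 2 ≤ 2 * a ^ 2 := by nlinarith
        have h4 : ‖x.fst‖ ^ 2 ≤ ‖x‖ ^ 2 := by nlinarith [norm_nonneg x.fst]
        have h5 : b ^ 2 * (1 - s ^ 2) ≤ 2 * ‖x‖ ^ 2 := by
          have : b ^ 2 * (2 * a ^ 2) = 2 * ‖x‖ ^ 2 := by rw [← h2]; ring
          nlinarith [mul_le_mul_of_nonneg_left h3 (sq_nonneg b)]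
        have ht0 : 0 < t := lt_of_le_of_lt (by positivity) hcon
        have h6 : t ^ 2 + 2 * t * b * s ≤ 3 * ‖x‖ ^ 2 := by nlinarith
        have h7 : 3 * ‖x‖ ^ 2 ≤ 2 * t * b * s := by
          have h8 : 3 * ‖x‖ ^ 2 ≤ t * b := by
            have : 3 * a * ‖x‖ * b = 3 * ‖x‖ ^ 2 := by
              have : 3 * a * ‖x‖ * b = 3 * ‖x‖ * (a * b) := by ring
              rw [this, h2]; ring
            nlinarith [mul_le_mul_of_nonneg_right hcon.le hb0]
          have h9 : 0 ≤ t * b := by positivity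
          nlinarith
        nlinarith
      rw [abs_le]
      constructor
      · have := key (-(h z)) (fun b => by
          have := hA (-b)
          nlinarith)
        linarith
      · exact key (h z) hA
    have hhx : h x = h z + x.snd * s := by
      calc h x = h (z + x.snd • u) := by rw [← hxz]
        _ = h z + x.snd * s := by rw [map_add, map_smul, smul_eq_mul]
    have hval : (h - g) x = h z + (s - 1) * x.snd := by
      rw [_root_.sub_apply, g_apply, hhx]
      ring
    rw [hval, Real.norm_eq_abs]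
    have h1 : |(s - 1) * x.snd| ≤ a * ‖x‖ := by
      rw [abs_mul]
      apply mul_le_mul _ (abs_snd_le x) (abs_nonneg _) ha.le
      rw [abs_le]
      constructor <;> nlinarith
    calc |h z + (s - 1) * x.snd| ≤ |h z| + |(s - 1) * x.snd| := abs_add_le _ _
      _ ≤ 4 * a * ‖x‖ := by linarith
  apply le_antisymm
  · apply le_of_forall_pos_le_add
    intro ε hε
    rw [zero_add]
    have h1 : 0 < min (ε / 4) (1 / 2) := lt_min (by positivity) (by norm_num)
    have h2 := csInf_le ⟨0, fun r hr => hr.1.le⟩ (hmem _ h1 (min_le_right _ _))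
    have h3 : min (ε / 4) (1 / 2) ≤ ε / 4 := min_le_left _ _
    have h4 : dualSliceIndex XX ≤ 4 * min (ε / 4) (1 / 2) := h2
    linarith
  · exact Real.sInf_nonneg fun r hr => hr.1.le

/-- The rank one projection onto the real line. -/
noncomputable def P : XX →L[ℝ] XX := g.smulRight u

theorem P_apply (x : XX) : P x = x.snd • u := rfl

theorem norm_negP : ‖-P‖ = 1 := by
  rw [norm_neg, P, ContinuousLinearMap.norm_smulRight_apply, norm_g, norm_u, mul_one]

theorem weaklyCompact_negP : IsWeaklyCompact (-P) := by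
  have hK : IsCompact ((fun t : ℝ => toWeakSpace ℝ XX (t • u)) '' Set.Icc (-1) 1) := by
    apply isCompact_Icc.image
    have h1 : Continuous (fun t : ℝ => t • u) := continuous_id.smul continuous_const
    exact (toWeakSpaceCLM ℝ XX).continuous.comp h1
  apply hK.closure_of_subset
  rintro _ ⟨_, ⟨x, hx, rfl⟩, rfl⟩
  refine ⟨-x.snd, ?_, ?_⟩
  · rw [Metric.mem_closedBall, dist_zero_right] at hx
    have := (abs_le.mp ((abs_snd_le x).trans hx))
    constructor <;> linarith
  · change toWeakSpace ℝ XX ((-x.snd) • u) = toWeakSpace ℝ XX (-(x.snd • u))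
    rw [neg_smul]

theorem norm_negP_add : ‖-P + ContinuousLinearMap.id ℝ XX‖ ≤ 1 := by
  apply ContinuousLinearMap.opNorm_le_bound _ zero_le_one
  intro x
  rw [one_mul]
  apply le_of_sq_le_sq _ (norm_nonneg _)
  have h1 : (-P + ContinuousLinearMap.id ℝ XX) x = WithLp.toLp 2 (x.fst, 0) := by
    apply WithLp.ofLp_injective
    rw [_root_.add_apply, _root_.neg_apply, P_apply]
    ext1
    · simp [u]
    · simp [u]
  rw [h1, norm_sq, norm_sq x]
  simp
  positivity

theorem one_le_norm_add {T : XX →L[ℝ] XX} (hT : IsWeaklyCompact T) :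
    1 ≤ ‖T + ContinuousLinearMap.id ℝ XX‖ := by
  by_contra hlt
  push Not at hlt
  -- `-T` is invertible
  obtain ⟨S, hS⟩ : ∃ S : XX →L[ℝ] XX, ∀ x, S (T x) = x := by
    have h1 : ((Units.oneSub (T + ContinuousLinearMap.id ℝ XX) hlt : (XX →L[ℝ] XX)ˣ) :
        XX →L[ℝ] XX) = -T := by
      rw [Units.val_oneSub]
      change (1 : XX →L[ℝ] XX) - (T + 1) = -T
      abel
    have h2 := (Units.oneSub (T + ContinuousLinearMap.id ℝ XX) hlt).inv_mul
    rw [h1] at h2
    refine ⟨-((Units.oneSub (T + ContinuousLinearMap.id ℝ XX) hlt)⁻¹ : (XX →L[ℝ] XX)ˣ), ?_⟩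
    intro x
    have h3 := congrArg (fun A : XX →L[ℝ] XX => A x) h2
    change (((Units.oneSub (T + ContinuousLinearMap.id ℝ XX) hlt)⁻¹ : (XX →L[ℝ] XX)ˣ) :
      XX →L[ℝ] XX) (-(T x)) = x at h3
    rw [map_neg] at h3
    exact h3
  -- the images of the vectors `(1, …, 1, 0, …)`
  set y : ℕ → XX := fun n => WithLp.toLp 2 (ones n, 0) with hy
  have hy1 : ∀ n, ‖y n‖ ≤ 1 := by
    intro n
    apply le_of_sq_le_sq _ zero_le_one
    have h1 := norm_sq (y n)
    have h2 : ‖ones n‖ ≤ 1 := by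
      rw [norm_le_iff zero_le_one]
      intro i
      rw [ones_apply]
      split_ifs <;> simp
    have h3 : (y n).fst = ones n := rfl
    have h4 : (y n).snd = 0 := rfl
    rw [h3, h4] at h1
    nlinarith [norm_nonneg (ones n)]
  have hmem : ∀ n, toWeakSpace ℝ XX (T (y n)) ∈
      closure (toWeakSpace ℝ XX '' (T '' Metric.closedBall (0 : XX) 1)) := by
    intro n
    apply subset_closure
    refine ⟨_, ⟨y n, ?_, rfl⟩, rfl⟩
    rw [Metric.mem_closedBall, dist_zero_right]
    exact hy1 n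
  obtain ⟨w, -, hw⟩ := hT.exists_mapClusterPt_of_frequently (l := atTop)
    (f := fun n => toWeakSpace ℝ XX (T (y n))) (Frequently.of_forall hmem)
  -- all coordinates of `S w` are equal to one
  have key : ∀ i : ℕ, ((S ((toWeakSpace ℝ XX).symm w)).fst : C0) i = 1 := by
    intro i
    by_contra hne
    set φ : XX →L[ℝ] ℝ := LinearMap.mkContinuous
      { toFun := fun x : XX => (x.fst : C0) i
        map_add' := fun x y => rfl
        map_smul' := fun c x => rfl } 1 (by
        intro x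
        rw [one_mul]
        exact (abs_apply_le x.fst i).trans (by
          apply le_of_sq_le_sq _ (norm_nonneg _)
          have := norm_sq x
          nlinarith [sq_nonneg x.snd])) with hφ
    have hφa : ∀ x : XX, φ x = (x.fst : C0) i := fun x => rfl
    have hcont : Continuous (fun z : WeakSpace ℝ XX => (φ.comp S) ((toWeakSpace ℝ XX).symm z)) :=
      continuous_weak_eval (φ.comp S)
    have hopen : IsOpen {z : WeakSpace ℝ XX | (φ.comp S) ((toWeakSpace ℝ XX).symm z) ≠ 1} :=
      isOpen_ne.preimage hcont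
    have hwmem : w ∈ {z : WeakSpace ℝ XX | (φ.comp S) ((toWeakSpace ℝ XX).symm z) ≠ 1} := hne
    have hfreq := hw.frequently (hopen.mem_nhds hwmem)
    have hev : ∀ᶠ n in atTop, (φ.comp S) (T (y n)) = 1 := by
      filter_upwards [eventually_ge_atTop i] with n hn
      have h1 : S (T (y n)) = y n := hS (y n)
      change φ (S (T (y n))) = 1
      rw [h1, hφa]
      change ones n i = 1
      rw [ones_apply, if_pos hn]
    obtain ⟨n, hn1, hn2⟩ := (hfreq.and_eventually hev).exists
    exact hn1 hn2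
  have hlim := tendsto_zero (S ((toWeakSpace ℝ XX).symm w)).fst
  have hlim1 : Tendsto (fun n => ((S ((toWeakSpace ℝ XX).symm w)).fst : C0) n) atTop (𝓝 1) := by
    simp only [key]
    exact tendsto_const_nhds
  exact zero_ne_one (tendsto_nhds_unique hlim hlim1)

theorem weaklyCompactIndex_eq_one : weaklyCompactIndex XX = 1 := by
  have hmem : ‖-P + ContinuousLinearMap.id ℝ XX‖ ∈ {r : ℝ | ∃ T : XX →L[ℝ] XX, ‖T‖ = 1 ∧
      IsWeaklyCompact T ∧ r = ‖T + ContinuousLinearMap.id ℝ XX‖} :=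
    ⟨-P, norm_negP, weaklyCompact_negP, rfl⟩
  have hlow : ∀ r ∈ {r : ℝ | ∃ T : XX →L[ℝ] XX, ‖T‖ = 1 ∧
      IsWeaklyCompact T ∧ r = ‖T + ContinuousLinearMap.id ℝ XX‖}, 1 ≤ r := by
    rintro r ⟨T, -, hT, rfl⟩
    exact one_le_norm_add hT
  exact le_antisymm ((csInf_le ⟨1, hlow⟩ hmem).trans norm_negP_add) (le_csInf ⟨_, hmem⟩ hlow)

/-- **Theorem.** There is a real Banach space `X` for which both slice indices of thickness
`𝒯ˢ(X)` and `𝒯ˢ_{w*}(X*)` are equal to `0`, while the infimum of `‖T + I‖` over all weakly compact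
operators `T` of norm one is equal to `1`. -/
theorem result : ∃ (X : Type) (_ : NormedAddCommGroup X) (_ : NormedSpace ℝ X)
    (_ : CompleteSpace X), sliceIndex X = 0 ∧ dualSliceIndex X = 0 ∧ weaklyCompactIndex X = 1 ∧
      max (sliceIndex X) (dualSliceIndex X) < weaklyCompactIndex X := by
  refine ⟨XX, inferInstance, inferInstance, inferInstance, sliceIndex_eq_zero,
    dualSliceIndex_eq_zero, weaklyCompactIndex_eq_one, ?_⟩
  rw [sliceIndex_eq_zero, dualSliceIndex_eq_zero, weaklyCompactIndex_eq_one]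
  norm_num

end Pool.Agent.Results.MP_2c23da_an.IndicesZeroPerturbationOne
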